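import Pool.Agent.Helper76.FT.GoalsC

/-!
# MP_39e2b7_an, packet FT-REGION: tori of small height are strictly inside
-/

set_option autoImplicit false

namespace Pool.Agent.Helper6.FT

open Complex Set Filter Topology
open Pool.Agent.Helper76.FT

theorem V_int (S : Sys) (hS : S.Ok) (Y : ℝ) (hY : Y ∈ Icc S.a S.b) (t : ℝ)
    (ht : t ∈ Icc (0:ℝ) 1) (q : ℝ) (n : ℤ) : S.V Y (q + n) t = S.V Y q t := by
  have hper : Function.Periodic (fun x : ℝ => S.V Y x t) 1 := fun x => hS.Vper Y hY x t ht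
  have h := hper.int_mul n q
  simpa using h

theorem V_fract (S : Sys) (hS : S.Ok) (Y : ℝ) (hY : Y ∈ Icc S.a S.b) (t : ℝ)
    (ht : t ∈ Icc (0:ℝ) 1) (q : ℝ) : S.V Y q t = S.V Y (Int.fract q) t := by
  have h := V_int S hS Y hY t ht (Int.fract q) ⌊q⌋
  rw [← h]
  congr 1
  rw [Int.fract_add_floor]

theorem gap (S : Sys) (hS : S.Ok) (Y Y' : ℝ) (hY : Y ∈ Icc S.a S.b) (hY' : Y' ∈ Icc S.a S.b)
    (hlt : Y < Y') : ∃ e : ℝ, 0 < e ∧ ∀ x : ℝ, ∀ t ∈ Icc (0:ℝ) 1, S.V Y x t + e ≤ S.V Y' x t := by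
  have hc : ∀ Z ∈ Icc S.a S.b,
      ContinuousOn (fun z : ℝ × ℝ => S.V Z z.1 z.2) (Icc (0:ℝ) 1 ×ˢ Icc (0:ℝ) 1) := by
    intro Z hZ
    have h1 : ContinuousOn (fun z : ℝ × ℝ => ((Z, z.1, z.2) : ℝ × ℝ × ℝ))
        (Icc (0:ℝ) 1 ×ˢ Icc (0:ℝ) 1) := by fun_prop
    have h2 := hS.Vcont.comp h1 (by
      intro z hz
      exact ⟨hZ, ⟨mem_univ _, hz.2⟩⟩)
    exact h2
  have hcomp : IsCompact (Icc (0:ℝ) 1 ×ˢ Icc (0:ℝ) 1) := isCompact_Icc.prod isCompact_Icc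
  have hne : (Icc (0:ℝ) 1 ×ˢ Icc (0:ℝ) 1).Nonempty := ⟨(0, 0), by constructor <;> simp⟩
  obtain ⟨z₀, hz₀, hmin⟩ := hcomp.exists_isMinOn hne ((hc Y' hY').sub (hc Y hY))
  refine ⟨S.V Y' z₀.1 z₀.2 - S.V Y z₀.1 z₀.2, ?_, ?_⟩
  · have := hS.Vmono Y hY Y' hY' hlt z₀.1 z₀.2 hz₀.2
    linarith
  · intro x t ht
    have hx : (Int.fract x, t) ∈ Icc (0:ℝ) 1 ×ˢ Icc (0:ℝ) 1 :=
      ⟨⟨Int.fract_nonneg x, (Int.fract_lt_one x).le⟩, ht⟩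
    have h := isMinOn_iff.1 hmin _ hx
    simp only [Pi.sub_apply] at h
    rw [V_fract S hS Y hY t ht x, V_fract S hS Y' hY' t ht x]
    linarith

/-- FT-REGION -/
theorem ft_region : GReg → GMn → GThin → GRegion := by
  intro _ hMn hThin S hS
  obtain ⟨hmc, hmm, -⟩ := hMn S hS
  obtain ⟨δ₀, hδ₀, hT⟩ := hThin S hS
  refine ⟨δ₀, hδ₀, ?_⟩
  intro δ hδ hδle Y₁ hY₁ Y₂ hY₂ h12
  have haI : S.a ∈ Icc S.a S.b := ⟨le_rfl, (hS.ha.trans hS.hb).le⟩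
  have hbI : S.b ∈ Icc S.a S.b := ⟨(hS.ha.trans hS.hb).le, le_rfl⟩
  have h1I : Y₁ ∈ Icc S.a S.b := ⟨hY₁.1.le, hY₁.2.le⟩
  have h2I : Y₂ ∈ Icc S.a S.b := ⟨hY₂.1.le, hY₂.2.le⟩
  obtain ⟨e₁, he₁, hg₁⟩ := gap S hS S.a Y₁ haI h1I hY₁.1
  obtain ⟨e₂, he₂, hg₂⟩ := gap S hS Y₂ S.b h2I hbI hY₂.2
  obtain ⟨ε, hε, hε1, hε2, hε3⟩ : ∃ ε : ℝ, 0 < ε ∧ ε < δ ∧ ε < e₁ ∧ ε < e₂ := by
    refine ⟨min δ (min e₁ e₂) / 2, ?_, ?_, ?_, ?_⟩
    · have : 0 < min δ (min e₁ e₂) := lt_min hδ (lt_min he₁ he₂)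
      linarith
    · have h0 : 0 < min δ (min e₁ e₂) := lt_min hδ (lt_min he₁ he₂)
      have := min_le_left δ (min e₁ e₂)
      linarith
    · have h0 : 0 < min δ (min e₁ e₂) := lt_min hδ (lt_min he₁ he₂)
      have h1 := min_le_right δ (min e₁ e₂)
      have h2 := min_le_left e₁ e₂
      linarith
    · have h0 : 0 < min δ (min e₁ e₂) := lt_min hδ (lt_min he₁ he₂)
      have h1 := min_le_right δ (min e₁ e₂)
      have h2 := min_le_right e₁ e₂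
      linarith
  obtain ⟨η, hη, hTh⟩ := hT ε hε
  refine ⟨η, hη, ?_⟩
  intro ρ w c hTor hcim hc1 hc2
  -- the leaf with mean momentum `c.re`
  have hsub : Icc Y₁ Y₂ ⊆ Icc S.a S.b := Icc_subset_Icc hY₁.1.le hY₂.2.le
  have hivt := intermediate_value_Icc h12.le (hmc.mono hsub)
  obtain ⟨Y, hY, hYc⟩ := hivt ⟨hc1, hc2⟩
  have hYI : Y ∈ Icc S.a S.b := hsub hY
  refine ⟨hTor, ?_⟩
  intro x t ht
  have hclose := hTh δ ρ w c hδle hTor hcim Y hYI hYc x t ht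
  have hmono : ∀ Z ∈ Icc S.a S.b, ∀ Z' ∈ Icc S.a S.b, Z ≤ Z' → S.V Z x t ≤ S.V Z' x t := by
    intro Z hZ Z' hZ' hle
    rcases hle.eq_or_lt with h | h
    · rw [h]
    · exact (hS.Vmono Z hZ Z' hZ' h x t ht).le
  have hlow : S.V Y₁ x t ≤ S.V Y x t := hmono _ h1I _ hYI hY.1
  have hup : S.V Y x t ≤ S.V Y₂ x t := hmono _ hYI _ h2I hY.2
  have hre : |(w (x : ℂ) t).re - S.V Y x t| ≤ ε := by
    have h := (Complex.abs_re_le_norm (w (x : ℂ) t - (S.V Y x t : ℝ))).trans hclose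
    simpa using h
  have him : |(w (x : ℂ) t).im| ≤ ε := by
    have h := (Complex.abs_im_le_norm (w (x : ℂ) t - (S.V Y x t : ℝ))).trans hclose
    simpa using h
  have hg1 := hg₁ x t ht
  have hg2 := hg₂ x t ht
  have hre' := abs_le.1 hre
  have him' := abs_le.1 him
  refine ⟨?_, ?_, ?_⟩
  · linarith [him'.2]
  · linarith [hre'.1]
  · linarith [hre'.2]

end Pool.Agent.Helper6.FT
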